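import Pool.Agent.H654R5.PT.Stm

/-!
# Meaning of the formula
-/

namespace Pool.Agent.H654R5.PT.FML

open Pool.Agent.NPC

theorem eval_bigOr (A : Set (List Bool)) (l : List BF) :
    (bigOr l).eval A ↔ ∃ p ∈ l, p.eval A := by
  induction l with
  | nil => simp [bigOr, BF.eval]
  | cons a l ih =>
    have : bigOr (a :: l) = BF.or a (bigOr l) := rfl
    rw [this]
    simp only [BF.eval, ih, List.mem_cons, exists_eq_or_imp]

theorem eval_bigAnd (A : Set (List Bool)) (l : List BF) :
    (bigAnd l).eval A ↔ ∀ p ∈ l, p.eval A := by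
  induction l with
  | nil => simp [bigAnd, BF.eval]
  | cons a l ih =>
    have : bigAnd (a :: l) = BF.and a (bigAnd l) := rfl
    rw [this]
    simp only [BF.eval, ih, List.mem_cons, forall_eq_or_imp]

theorem eval_phi (hSTR : S_STR) (A : Set (List Bool)) (e : List Bool) (c : ℕ × List Bool) :
    (phi e c).eval A ↔
      (∀ z : List Bool, z.length = aa (gI e.length) → code (gI e.length) (item e) z = true →
        false :: false :: (c.2 ++ z) ∉ A) ∧
      (∃ z : List Bool, z.length = aa (gI e.length) ∧ code (gI e.length) (item e) z = false ∧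
        false :: false :: (c.2 ++ z) ∈ A) := by
  unfold phi
  simp only [BF.eval, eval_bigAnd, eval_bigOr, List.mem_map, List.mem_filter, hSTR.1]
  constructor
  · rintro ⟨h1, h2⟩
    refine ⟨fun z hz hc => ?_, ?_⟩
    · have := h1 _ ⟨z, ⟨hz, hc⟩, rfl⟩
      simpa only [BF.eval] using this
    · obtain ⟨p, ⟨z, ⟨hz, hc⟩, rfl⟩, hp⟩ := h2
      refine ⟨z, hz, ?_, ?_⟩
      · simpa using hc
      · simpa only [BF.eval] using hp
  · rintro ⟨h1, z, hz, hc, hA⟩
    refine ⟨?_, BF.atom (false :: false :: (c.2 ++ z)), ⟨z, ⟨hz, by simp [hc]⟩, rfl⟩, ?_⟩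
    · rintro p ⟨y, ⟨hy, hcy⟩, rfl⟩
      simpa only [BF.eval] using h1 y hy hcy
    · simpa only [BF.eval] using hA

theorem mem_cands {e : List Bool} {c : ℕ × List Bool} (h : c ∈ cands e) :
    c.1 ∈ lvls e.length ∧
      c.2 ∈ addr (gI e.length) (c.1 - aa (gI e.length)) (item e) := by
  unfold cands at h
  simp only [List.mem_flatMap, List.mem_map] at h
  obtain ⟨N, hN, a, ha, rfl⟩ := h
  exact ⟨hN, ha⟩

theorem cell (hCLS : S_CLS) (hDSP : S_DSP) {e : List Bool} {c : ℕ × List Bool}
    (h : c ∈ cands e) :
    gN c.1 = gI e.length ∧ aa (gI e.length) < c.1 ∧ c.2.length = c.1 - aa (gI e.length) := by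
  obtain ⟨h1, h2⟩ := mem_cands h
  obtain ⟨h3, h4, h5⟩ := (hCLS.2.1 _ _).1 h1
  refine ⟨h3, h4, ?_⟩
  obtain ⟨i, hi⟩ := (hCLS.1 e.length).2.1
  have hg : 1 ≤ gI e.length := by rw [hi]; exact Nat.one_le_two_pow
  have hlt := (hCLS.1 e.length).1
  refine (hDSP (gI e.length) (c.1 - aa (gI e.length)) hg ?_).1 _ _ h2
  omega

theorem spoiled_mono {a : ℕ → Option (List Bool)} {n m : ℕ} (h : n ≤ m) {w : List Bool}
    (hw : w ∈ spoiled a n) : w ∈ spoiled a m := by
  unfold spoiled at *
  simp only [List.mem_filterMap, List.mem_range] at *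
  obtain ⟨k, hk, hw⟩ := hw
  exact ⟨k, by omega, hw⟩

/-- if a cell never dies, few of its strings are ever spoiled -/
theorem few_spoiled (hSTR : S_STR) (a : ℕ → Option (List Bool)) (c : ℕ × List Bool)
    (hc : ∀ n, deadB a n c = false) (F : Finset (List Bool)) (hF : F ⊆ strs (aa (gN c.1)))
    (hs : ∀ z ∈ F, ∃ n, a n = some (c.2 ++ z)) : 8 * F.card ≤ 2 ^ aa (gN c.1) := by
  classical
  -- a common stage
  have key : ∃ n, ∀ z ∈ F, c.2 ++ z ∈ spoiled a n := by
    clear hF
    induction F using Finset.induction_on with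
    | empty => exact ⟨0, by simp⟩
    | insert z F hz ih =>
      obtain ⟨n, hn⟩ := ih (fun y hy => hs y (Finset.mem_insert_of_mem hy))
      obtain ⟨m, hm⟩ := hs z (Finset.mem_insert_self _ _)
      refine ⟨max n (m + 1), fun y hy => ?_⟩
      rcases Finset.mem_insert.1 hy with rfl | hy
      · unfold spoiled
        simp only [List.mem_filterMap, List.mem_range]
        exact ⟨m, by omega, hm⟩
      · exact spoiled_mono (le_max_left _ _) (hn y hy)
  obtain ⟨n, hn⟩ := key
  have h := hc n
  unfold deadB at h
  simp only [decide_eq_false_iff_not, not_lt] at h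
  refine le_trans ?_ h
  refine Nat.mul_le_mul_left 8 ?_
  have hsub : F ⊆ ((allStr (aa (gN c.1))).filter
      (fun z => decide (c.2 ++ z ∈ spoiled a n))).toFinset := by
    intro z hz
    simp only [List.mem_toFinset, List.mem_filter, decide_eq_true_eq]
    refine ⟨?_, hn z hz⟩
    have := hF hz
    rw [hSTR.2.2.2.1] at this
    exact (hSTR.1 _ _).2 this
  refine le_trans (Finset.card_le_card hsub) ?_
  exact List.toFinset_card_le _

theorem unique_cell (hINV : S_INV) {a t : ℕ → Option (List Bool)} {n m : ℕ}
    {p q : (ℕ × List Bool) × List Bool} (hp : p ∈ run a t n) (hq : q ∈ run a t m)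
    (h : p.1 = q.1) : p = q := by
  have hp' : p ∈ run a t (max n m) := (hINV a t).2.1 n _ (le_max_left _ _) |>.subset hp
  have hq' : q ∈ run a t (max n m) := (hINV a t).2.1 m _ (le_max_right _ _) |>.subset hq
  exact List.inj_on_of_nodup_map ((hINV a t).2.2.1 (max n m)) hp' hq' h

theorem FML_proof (hSTR : S_STR) (hCLS : S_CLS) (hINV : S_INV) (hENC : S_ENC) (hUNI : S_UNI)
    (hDSP : S_DSP) : S_FML := by
  classical
  intro e
  have hfml : (fml e).eval (H544R2.randomStrings U) ↔
      ∃ c ∈ cands e, (phi e c).eval (H544R2.randomStrings U) := by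
    unfold fml
    rw [eval_bigOr]
    simp only [List.mem_map]
    constructor
    · rintro ⟨p, ⟨c, hc, rfl⟩, h⟩
      exact ⟨c, hc, h⟩
    · rintro ⟨c, hc, h⟩
      exact ⟨_, ⟨c, hc, rfl⟩, h⟩
  rw [hfml]
  refine exists_congr fun c => and_congr_right fun hc => ?_
  obtain ⟨hg, hlt, hlen⟩ := cell hCLS hDSP hc
  set g := gI e.length with hgdef
  have hmono := (hINV eA eT).1
  have hrun := (hINV eA eT).2.1
  -- nonrandomness of the strings of the cell
  have hnr : ∀ z : List Bool, z.length = aa g →
      (false :: false :: (c.2 ++ z) ∉ H544R2.randomStrings U ↔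
        (∃ n, eA n = some (c.2 ++ z)) ∨ (∃ n, deadB eA n c = true) ∨
          ∃ n, ∃ p ∈ run eA eT n, p.1 = c ∧ code g (item p.2) z = true) := by
    intro z hz
    rw [hUNI.2]
    have hwl : (c.2 ++ z).length = c.1 := by
      rw [List.length_append, hlen, hz]; omega
    have hsub : (c.2 ++ z).length - aa (gN (c.2 ++ z).length) = c.2.length := by
      rw [hwl, hg, hlen]
    have htake : (c.2 ++ z).take ((c.2 ++ z).length - aa (gN (c.2 ++ z).length)) = c.2 := by
      rw [hsub, List.take_left]
    have hdrop : (c.2 ++ z).drop ((c.2 ++ z).length - aa (gN (c.2 ++ z).length)) = z := by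
      rw [hsub, List.drop_left]
    have hcc : ((c.2 ++ z).length,
        (c.2 ++ z).take ((c.2 ++ z).length - aa (gN (c.2 ++ z).length))) = c := by
      rw [htake, hwl]
    have hgg : gN (c.2 ++ z).length = g := by rw [hwl, hg]
    have hmark : ∀ n, markB eA eT n (c.2 ++ z) = true ↔
        deadB eA n c = true ∨ ∃ p ∈ run eA eT n, p.1 = c ∧ code g (item p.2) z = true := by
      intro n
      unfold markB
      rw [hcc, hdrop, hgg]
      simp only [Bool.or_eq_true, List.any_eq_true, Bool.and_eq_true, decide_eq_true_eq]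
    constructor
    · rintro (h | ⟨n, h⟩)
      · exact Or.inl h
      · rcases (hmark n).1 h with h | h
        · exact Or.inr (Or.inl ⟨n, h⟩)
        · exact Or.inr (Or.inr ⟨n, h⟩)
    · rintro (h | ⟨n, h⟩ | ⟨n, h⟩)
      · exact Or.inl h
      · exact Or.inr ⟨n, (hmark n).2 (Or.inl h)⟩
      · exact Or.inr ⟨n, (hmark n).2 (Or.inr h)⟩
  obtain ⟨hitl, hitt⟩ := hCLS.2.2.2.2.1 e
  rw [eval_phi hSTR]
  constructor
  · rintro ⟨h1, z0, hz0, hc0, hr0⟩
    -- the cell never dies
    have hnd : ∀ n, deadB eA n c = false := by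
      intro n
      by_contra hn
      have hn' : deadB eA n c = true := by
        cases h : deadB eA n c
        · exact absurd h hn
        · rfl
      exact (hnr z0 hz0).2 (Or.inr (Or.inl ⟨n, hn'⟩)) hr0
    -- strings which have to be spoiled
    have hmust : ∀ z : List Bool, z.length = aa g → code g (item e) z = true →
        (∀ n, ∀ p ∈ run eA eT n, p.1 = c → code g (item p.2) z = false) →
        ∃ n, eA n = some (c.2 ++ z) := by
      intro z hz hcz hp
      rcases (hnr z hz).1 (h1 z hz hcz) with h | ⟨n, h⟩ | ⟨n, p, hpm, hpc, h⟩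
      · exact h
      · rw [hnd n] at h; exact absurd h (by simp)
      · rw [hp n p hpm hpc] at h; exact absurd h (by simp)
    by_cases hass : ∃ n, ∃ p ∈ run eA eT n, p.1 = c
    · obtain ⟨n, p, hpm, hpc⟩ := hass
      by_cases hpe : p.2 = e
      · refine ⟨n, fun m hm => ⟨?_, hnd m⟩⟩
        have : p = (c, e) := by
          rw [← hpc, ← hpe]
        rw [← this]
        exact (hrun n m hm).subset hpm
      · exfalso
        have hcand : c ∈ cands p.2 := by
          have := ((hINV eA eT).2.2.2.1 n p hpm).1
          rwa [hpc] at this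
        obtain ⟨hg2, _, _⟩ := cell hCLS hDSP hcand
        have hgeq : gI e.length = gI p.2.length := by rw [← hgdef, ← hg, hg2]
        have hne : item e ≠ item p.2 := by
          intro h
          exact hpe (hCLS.2.2.2.2.2 e p.2 hgeq h).symm
        have hl2 : (item p.2).length = 2 ^ g := by
          rw [(hCLS.2.2.2.2.1 p.2).1, ← hgeq]
        have hcount := (hENC g (item e) (item p.2) hitl hl2 hitt).1 hne
        have hfew := few_spoiled hSTR eA c hnd
          ((strs (aa g)).filter (fun z => code g (item e) z = true ∧ code g (item p.2) z = false))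
          (by rw [hg]; exact Finset.filter_subset _ _)
          (by
            intro z hz
            rw [Finset.mem_filter, hSTR.2.2.2.1] at hz
            refine hmust z hz.1 hz.2.1 ?_
            intro m q hq hqc
            have : q = p := unique_cell hINV hq hpm (by rw [hqc, hpc])
            rw [this]
            exact hz.2.2)
        rw [hg] at hfew
        omega
    · exfalso
      have hcount := (hENC g (item e) (item e) hitl hitl hitt).2.1
      have hfew := few_spoiled hSTR eA c hnd
        ((strs (aa g)).filter (fun z => code g (item e) z = true))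
        (by rw [hg]; exact Finset.filter_subset _ _)
        (by
          intro z hz
          rw [Finset.mem_filter, hSTR.2.2.2.1] at hz
          refine hmust z hz.1 hz.2 ?_
          intro m q hq hqc
          exact absurd ⟨m, q, hq, hqc⟩ hass)
      rw [hg] at hfew
      omega
  · rintro ⟨n0, hn0⟩
    have hnd : ∀ n, deadB eA n c = false := by
      intro n
      by_contra hn
      have hn' : deadB eA n c = true := by
        cases h : deadB eA n c
        · exact absurd h hn
        · rfl
      have := hmono n (max n n0) c (le_max_left _ _) hn'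
      rw [(hn0 _ (le_max_right _ _)).2] at this
      exact absurd this (by simp)
    have hce := (hn0 n0 le_rfl).1
    refine ⟨?_, ?_⟩
    · intro z hz hcz
      exact (hnr z hz).2 (Or.inr (Or.inr ⟨n0, (c, e), hce, rfl, hcz⟩))
    · by_contra hno
      have hall : ∀ z : List Bool, z.length = aa g → code g (item e) z = false →
          ∃ n, eA n = some (c.2 ++ z) := by
        intro z hz hcz
        have hnot : false :: false :: (c.2 ++ z) ∉ H544R2.randomStrings U := by
          intro h
          exact hno ⟨z, hz, hcz, h⟩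
        rcases (hnr z hz).1 hnot with h | ⟨n, h⟩ | ⟨n, p, hpm, hpc, h⟩
        · exact h
        · rw [hnd n] at h; exact absurd h (by simp)
        · have : p = (c, e) := unique_cell hINV hpm hce hpc
          rw [this] at h
          simp only at h
          rw [hcz] at h
          exact absurd h (by simp)
      have hcount := (hENC g (item e) (item e) hitl hitl hitt).2.2
      have hfew := few_spoiled hSTR eA c hnd
        ((strs (aa g)).filter (fun z => code g (item e) z = false))
        (by rw [hg]; exact Finset.filter_subset _ _)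
        (by
          intro z hz
          rw [Finset.mem_filter, hSTR.2.2.2.1] at hz
          exact hall z hz.1 hz.2)
      rw [hg] at hfew
      omega

end Pool.Agent.H654R5.PT.FML
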